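import Pool.Agent.Helper894.FS.Defs

namespace Pool.Agent.Helper894.FS

namespace LEA

open scoped BigOperators


theorem disp_lt_phi10743 {π : F2 →* Equiv.Perm ℤ} {φ : ℤ → ℝ}
    (hπ : ∀ (x : Bool) (n : ℤ), |φ (π (FreeGroup.of x) n) - φ n| ≤ 1) (s : Lt) (n : ℤ) :
    |φ (π (lt s) n) - φ n| ≤ 1 := by
  rcases s with _ | ⟨x, b⟩
  · simp [lt]
  · cases b
    · have h1 : lt (some (x, false)) = (FreeGroup.of x)⁻¹ := rfl
      rw [h1, map_inv]
      have h2 := hπ x ((π (FreeGroup.of x))⁻¹ n)
      rw [← Equiv.Perm.mul_apply, mul_inv_cancel, Equiv.Perm.one_apply, abs_sub_comm] at h2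
      exact h2
    · exact hπ x n

theorem ev_claim_phi10743 (π : F2 →* Equiv.Perm ℤ) (φ : ℤ → ℝ) (hφ : StrictMono φ)
    (hπ : ∀ (x : Bool) (n : ℤ), |φ (π (FreeGroup.of x) n) - φ n| ≤ 1) (c : ℤ) (D : ℝ)
    (hD : 0 < D) (l : List Lt)
    (hl : ∀ t, t <:+ l → ∀ z : ℤ, |φ z - φ c| ≤ D + 1 → |φ (π (ev t) z) - φ z| < D) :
    (∀ y, φ y < φ c - (D + 1) → π (ev l) y < c) ∧
      (∀ y, φ c + (D + 1) < φ y → c < π (ev l) y) := by
  induction l with
  | nil =>
    simp only [ev, map_one, Equiv.Perm.one_apply]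
    constructor <;> intro y hy <;> apply hφ.lt_iff_lt.1 <;> linarith
  | cons s l ih =>
    obtain ⟨ih1, ih2⟩ := ih fun t ht => hl t (ht.trans (List.suffix_cons s l))
    have hl2 := hl l (List.suffix_cons s l)
    constructor
    · intro y hy
      have h1 := disp_lt_phi10743 hπ s y
      rw [abs_le] at h1
      simp only [ev, map_mul, Equiv.Perm.mul_apply]
      by_cases h2 : φ (π (lt s) y) < φ c - (D + 1)
      · exact ih1 _ h2
      · push Not at h2
        have h3 := hl2 (π (lt s) y) (by rw [abs_le]; constructor <;> linarith)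
        rw [abs_lt] at h3
        apply hφ.lt_iff_lt.1
        linarith
    · intro y hy
      have h1 := disp_lt_phi10743 hπ s y
      rw [abs_le] at h1
      simp only [ev, map_mul, Equiv.Perm.mul_apply]
      by_cases h2 : φ c + (D + 1) < φ (π (lt s) y)
      · exact ih2 _ h2
      · push Not at h2
        have h3 := hl2 (π (lt s) y) (by rw [abs_le]; constructor <;> linarith)
        rw [abs_lt] at h3
        apply hφ.lt_iff_lt.1
        linarith

/-- two good words that agree near c give a barrier at c, in the metric given by phi -/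
theorem bar_of_good_phi (π : F2 →* Equiv.Perm ℤ) (φ : ℤ → ℝ) (hφ : StrictMono φ)
    (hπ : ∀ (x : Bool) (n : ℤ), |φ (π (FreeGroup.of x) n) - φ n| ≤ 1) (c : ℤ) (D : ℝ)
    (hD : 0 < D) (l l' : List Lt)
    (hl : ∀ t, t <:+ l → ∀ z : ℤ, |φ z - φ c| ≤ D + 1 → |φ (π (ev t) z) - φ z| < D)
    (hl' : ∀ t, t <:+ l' → ∀ z : ℤ, |φ z - φ c| ≤ D + 1 → |φ (π (ev t) z) - φ z| < D)
    (hag : ∀ z : ℤ, |φ z - φ c| ≤ D + 1 → π (ev l) z = π (ev l') z) :
    Bar π ((ev l)⁻¹ * ev l') c := by
  obtain ⟨h1, h2⟩ := ev_claim_phi10743 π φ hφ hπ c D hD l hl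
  obtain ⟨h1', h2'⟩ := ev_claim_phi10743 π φ hφ hπ c D hD l' hl'
  have hfix : ∀ z : ℤ, |φ z - φ c| ≤ D + 1 → π ((ev l)⁻¹ * ev l') z = z := by
    intro z hz
    rw [map_mul, map_inv, Equiv.Perm.mul_apply, ← hag z hz, ← Equiv.Perm.mul_apply,
      inv_mul_cancel, Equiv.Perm.one_apply]
  have hw : ∀ y, π (ev l) (π ((ev l)⁻¹ * ev l') y) = π (ev l') y := by
    intro y
    rw [← Equiv.Perm.mul_apply, ← map_mul, mul_inv_cancel_left]
  refine ⟨hfix c (by rw [sub_self, abs_zero]; linarith), ?_, ?_⟩
  · intro y hy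
    have hyφ := hφ hy
    by_cases hI : |φ y - φ c| ≤ D + 1
    · rw [hfix y hI]; exact hy
    · have hy2 : φ y < φ c - (D + 1) := by
        by_contra hcon
        push Not at hcon
        exact hI (by rw [abs_le]; constructor <;> linarith)
      by_contra hcon
      push Not at hcon
      have hconφ := hφ.monotone hcon
      have h3 := hw y
      have h4 := h1' y hy2
      by_cases h5 : φ c + (D + 1) < φ (π ((ev l)⁻¹ * ev l') y)
      · have := h2 _ h5
        rw [h3] at this
        linarith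
      · push Not at h5
        have h6 : |φ (π ((ev l)⁻¹ * ev l') y) - φ c| ≤ D + 1 := by
          rw [abs_le]; constructor <;> linarith
        rw [hag _ h6] at h3
        have h7 := (π (ev l')).injective h3
        rw [h7] at h6
        exact hI h6
  · intro y hy
    have hyφ := hφ hy
    by_cases hI : |φ y - φ c| ≤ D + 1
    · rw [hfix y hI]; exact hy
    · have hy2 : φ c + (D + 1) < φ y := by
        by_contra hcon
        push Not at hcon
        exact hI (by rw [abs_le]; constructor <;> linarith)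
      by_contra hcon
      push Not at hcon
      have hconφ := hφ.monotone hcon
      have h3 := hw y
      have h4 := h2' y hy2
      by_cases h5 : φ (π ((ev l)⁻¹ * ev l') y) < φ c - (D + 1)
      · have := h1 _ h5
        rw [h3] at this
        linarith
      · push Not at h5
        have h6 : |φ (π ((ev l)⁻¹ * ev l') y) - φ c| ≤ D + 1 := by
          rw [abs_le]; constructor <;> linarith
        rw [hag _ h6] at h3
        have h7 := (π (ev l')).injective h3
        rw [h7] at h6
        exact hI h6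

end LEA

end Pool.Agent.Helper894.FS
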