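import Pool.Agent.Helper894.FS.Defs

namespace Pool.Agent.Helper894.FS

namespace LEB

open scoped BigOperators


namespace TPhi

/-- the inverse letter -/
def tail_iv : Lt → Lt
  | none => none
  | some (x, b) => some (x, !b)

theorem tail_iv_iv (s : Lt) : tail_iv (tail_iv s) = s := by
  rcases s with _ | ⟨x, b⟩
  · rfl
  · cases b <;> rfl

theorem tail_lt_iv (s : Lt) : lt (tail_iv s) = (lt s)⁻¹ := by
  rcases s with _ | ⟨x, b⟩
  · show (1 : F2) = 1⁻¹
    rw [inv_one]
  · show FreeGroup.mk [(x, !b)] = (FreeGroup.mk [(x, b)])⁻¹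
    rw [FreeGroup.inv_mk]
    rfl

/-- the inversion of letters as an equivalence -/
def tail_ivE : Lt ≃ Lt := ⟨tail_iv, tail_iv, tail_iv_iv, tail_iv_iv⟩

theorem tail_disp {π : F2 →* Equiv.Perm ℤ} {φ : ℤ → ℝ}
    (hπ : ∀ (x : Bool) (n : ℤ), |φ (π (FreeGroup.of x) n) - φ n| ≤ 1) (s : Lt) (n : ℤ) :
    |φ (π (lt s) n) - φ n| ≤ 1 := by
  rcases s with _ | ⟨x, b⟩
  · show |φ (π 1 n) - φ n| ≤ 1
    rw [map_one]
    simp
  · cases b
    · have h1 : lt (some (x, false)) = (FreeGroup.of x)⁻¹ := by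
        show FreeGroup.mk [(x, false)] = (FreeGroup.mk [(x, true)])⁻¹
        rw [FreeGroup.inv_mk]
        rfl
      rw [h1, map_inv]
      have h2 := hπ x ((π (FreeGroup.of x))⁻¹ n)
      have h3 : π (FreeGroup.of x) ((π (FreeGroup.of x))⁻¹ n) = n :=
        (π (FreeGroup.of x)).apply_symm_apply n
      rw [h3] at h2
      rw [abs_sub_comm]
      exact h2
    · exact hπ x n

theorem tail_fin (π : F2 →* Equiv.Perm ℤ) {f : ℤ → ℝ} (hf : (Function.support f).Finite) :
    (Function.support (avg π f)).Finite := by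
  have h1 : (⋃ s : Lt, (π (lt s)) ⁻¹' Function.support f).Finite :=
    Set.finite_iUnion fun s => hf.preimage (π (lt s)).injective.injOn
  refine h1.subset ?_
  intro y hy
  by_contra hcon
  apply hy
  unfold avg
  rw [Finset.sum_eq_zero, mul_zero]
  intro s _
  by_contra hs
  exact hcon (Set.mem_iUnion.2 ⟨s, hs⟩)

theorem tail_fin_iter (π : F2 →* Equiv.Perm ℤ) (n : ℕ) {f : ℤ → ℝ}
    (hf : (Function.support f).Finite) : (Function.support ((avg π)^[n] f)).Finite := by
  induction n with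
  | zero => exact hf
  | succ n ih =>
    rw [Function.iterate_succ_apply']
    exact tail_fin π ih

theorem tail_adj (π : F2 →* Equiv.Perm ℤ) {f g : ℤ → ℝ} (hf : (Function.support f).Finite) :
    ∑' y, avg π f y * g y = ∑' y, f y * avg π g y := by
  have hsum : ∀ s : Lt, Summable (fun y => f (π (lt s) y) * g y) := by
    intro s
    apply summable_of_hasFiniteSupport
    apply (hf.preimage (π (lt s)).injective.injOn).subset
    intro y hy
    exact left_ne_zero_of_mul hy
  have hsum2 : ∀ s : Lt, Summable (fun y => f y * g (π (lt s) y)) := by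
    intro s
    apply summable_of_hasFiniteSupport
    apply hf.subset
    intro y hy
    exact left_ne_zero_of_mul hy
  have h1 : ∀ y, avg π f y * g y = (1 / 5) * ∑ s : Lt, f (π (lt s) y) * g y := by
    intro y
    unfold avg
    rw [mul_assoc, Finset.sum_mul]
  have h2 : ∀ y, f y * avg π g y = (1 / 5) * ∑ s : Lt, f y * g (π (lt s) y) := by
    intro y
    unfold avg
    rw [← Finset.mul_sum]
    ring
  rw [tsum_congr h1, tsum_congr h2, tsum_mul_left, tsum_mul_left]
  congr 1
  rw [Summable.tsum_finsetSum (fun s _ => hsum s), Summable.tsum_finsetSum (fun s _ => hsum2 s)]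
  rw [← Equiv.sum_comp tail_ivE]
  apply Finset.sum_congr rfl
  intro s _
  rw [← Equiv.tsum_eq (π (lt s))]
  apply tsum_congr
  intro y
  show f (π (lt (tail_iv s)) (π (lt s) y)) * g (π (lt s) y) = _
  have h3 : (π (lt s))⁻¹ (π (lt s) y) = y := (π (lt s)).symm_apply_apply y
  rw [tail_lt_iv, map_inv, h3]

theorem tail_adj_iter (π : F2 →* Equiv.Perm ℤ) (n : ℕ) : ∀ {f g : ℤ → ℝ},
    (Function.support f).Finite →
    ∑' y, (avg π)^[n] f y * g y = ∑' y, f y * (avg π)^[n] g y := by
  induction n with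
  | zero =>
    intro f g _
    rfl
  | succ n ih =>
    intro f g hf
    rw [Function.iterate_succ_apply, Function.iterate_succ_apply', ih (tail_fin π hf),
      tail_adj π hf]

theorem tail_words (π : F2 →* Equiv.Perm ℤ) (F : ℤ → ℝ) (n : ℕ) :
    ∀ z, ∑ l ∈ words n, F (π (ev l) z) = 5 ^ n * (avg π)^[n] F z := by
  induction n with
  | zero =>
    intro z
    simp [words, ev]
  | succ n ih =>
    intro z
    have h1 : ∀ s : Lt, ∑ l ∈ words n, F (π (ev (s :: l)) z)
        = 5 ^ n * (avg π)^[n] F (π (lt s) z) := by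
      intro s
      rw [← ih]
      apply Finset.sum_congr rfl
      intro l _
      show F (π (ev l * lt s) z) = _
      rw [map_mul]
      rfl
    rw [words, Finset.sum_map, Finset.sum_product, Function.iterate_succ_apply']
    show ∑ s : Lt, ∑ l ∈ words n, F (π (ev (s :: l)) z)
      = 5 ^ (n + 1) * ((1 / 5) * ∑ s : Lt, (avg π)^[n] F (π (lt s) z))
    rw [Finset.sum_congr rfl (fun s _ => h1 s), ← Finset.mul_sum]
    ring

theorem tail_single_fin (z : ℤ) : (Function.support (Pi.single z (1 : ℝ) : ℤ → ℝ)).Finite := by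
  apply (Set.finite_singleton z).subset
  intro y hy
  by_contra hne
  exact hy (Pi.single_eq_of_ne hne _)

theorem tail_weight (π : F2 →* Equiv.Perm ℤ)
    (hweighted : ∀ (W : ℤ → ℝ) (δ : ℝ), (∀ n, 0 < W n) →
      (∀ (s : Lt) (n : ℤ), W (π (lt s) n) - W n ≤ δ * W n) →
      ∀ f : ℤ → ℝ, (Function.support f).Finite →
        ∑' n, W n * (avg π f n) ^ 2 ≤ (1 + δ ^ 2) * ∑' n, W n * (f n) ^ 2)
    (W : ℤ → ℝ) (δ : ℝ) (hW : ∀ n, 0 < W n)
    (hWd : ∀ (s : Lt) (n : ℤ), W (π (lt s) n) - W n ≤ δ * W n) (z : ℤ) (n : ℕ) :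
    ∑' y, W y * ((avg π)^[n] (Pi.single z 1) y) ^ 2 ≤ (1 + δ ^ 2) ^ n * W z := by
  induction n with
  | zero =>
    rw [tsum_eq_single z]
    · show W z * ((Pi.single z (1 : ℝ) : ℤ → ℝ) z) ^ 2 ≤ _
      rw [Pi.single_eq_same]
      simp
    · intro y hy
      show W y * ((Pi.single z (1 : ℝ) : ℤ → ℝ) y) ^ 2 = 0
      rw [Pi.single_eq_of_ne hy]
      simp
  | succ n ih =>
    rw [Function.iterate_succ_apply']
    have h1 := hweighted W δ hW hWd _ (tail_fin_iter π n (tail_single_fin z))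
    have h2 : (0 : ℝ) ≤ 1 + δ ^ 2 := by positivity
    calc _ ≤ _ := h1
      _ ≤ (1 + δ ^ 2) * ((1 + δ ^ 2) ^ n * W z) := mul_le_mul_of_nonneg_left ih h2
      _ = _ := by ring

theorem card_Lt : ∑ _s : Lt, (1 : ℝ) = 5 := by
  rw [Finset.sum_const, Finset.card_univ]
  have : Fintype.card Lt = 5 := by decide
  rw [this]
  norm_num

theorem avg_mono (π : F2 →* Equiv.Perm ℤ) {f g : ℤ → ℝ} (h : ∀ y, f y ≤ g y) (y : ℤ) :
    avg π f y ≤ avg π g y := by
  unfold avg
  apply mul_le_mul_of_nonneg_left _ (by norm_num)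
  exact Finset.sum_le_sum fun s _ => h _

theorem avg_const (π : F2 →* Equiv.Perm ℤ) (c : ℝ) (y : ℤ) : avg π (fun _ => c) y = c := by
  unfold avg
  have h : ∑ _s : Lt, c = c * ∑ _s : Lt, (1 : ℝ) := by
    rw [Finset.mul_sum]
    simp
  rw [h, card_Lt]
  ring

theorem iter_nonneg (π : F2 →* Equiv.Perm ℤ) {f : ℤ → ℝ} (h : ∀ y, 0 ≤ f y) (n : ℕ) :
    ∀ y, 0 ≤ (avg π)^[n] f y := by
  induction n with
  | zero => exact h
  | succ n ih =>
    intro y
    rw [Function.iterate_succ_apply']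
    have := avg_mono π ih y
    rwa [avg_const] at this

theorem iter_le_one (π : F2 →* Equiv.Perm ℤ) {f : ℤ → ℝ} (h : ∀ y, f y ≤ 1) (n : ℕ) :
    ∀ y, (avg π)^[n] f y ≤ 1 := by
  induction n with
  | zero => exact h
  | succ n ih =>
    intro y
    rw [Function.iterate_succ_apply']
    have := avg_mono π ih y
    rwa [avg_const] at this

/-- first exit decomposition -/
theorem first_exit (π : F2 →* Equiv.Perm ℤ) (φ : ℤ → ℝ)
    (hπ : ∀ (s : Lt) (n : ℤ), |φ (π (lt s) n) - φ n| ≤ 1) (a D : ℝ)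
    (F0 F1 : ℤ → ℝ) (hF00 : ∀ y, |φ y - a| < D → F0 y = 0) (hF01 : ∀ y, F0 y ≤ 1)
    (hF10 : ∀ y, 0 ≤ F1 y) (hF1 : ∀ y, D ≤ |φ y - a| → |φ y - a| ≤ D + 1 → F1 y = 1) (n : ℕ) :
    ∀ y, |φ y - a| < D →
      (avg π)^[n] F0 y ≤ ∑ j ∈ Finset.range (n + 1), (avg π)^[j] F1 y := by
  induction n with
  | zero =>
    intro y hy
    rw [Function.iterate_zero, id, hF00 y hy]
    exact Finset.sum_nonneg fun j _ => iter_nonneg π hF10 j y
  | succ n ih =>
    intro y hy
    rw [Function.iterate_succ_apply']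
    have h1 : ∀ s : Lt, (avg π)^[n] F0 (π (lt s) y) ≤
        ∑ j ∈ Finset.range (n + 1), (avg π)^[j] F1 (π (lt s) y) := by
      intro s
      rcases lt_or_ge (|φ (π (lt s) y) - a|) D with h | h
      · exact ih _ h
      · have h2 : |φ (π (lt s) y) - a| ≤ D + 1 := by
          have h3 := hπ s y
          have h4 : φ (π (lt s) y) - a = (φ (π (lt s) y) - φ y) + (φ y - a) := by ring
          rw [h4]
          refine (abs_add_le _ _).trans ?_
          linarith
        have h5 : (avg π)^[0] F1 (π (lt s) y) = 1 := hF1 _ h h2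
        calc (avg π)^[n] F0 (π (lt s) y) ≤ 1 := iter_le_one π hF01 n _
          _ = (avg π)^[0] F1 (π (lt s) y) := h5.symm
          _ ≤ _ := Finset.single_le_sum (f := fun j => (avg π)^[j] F1 (π (lt s) y))
              (fun j _ => iter_nonneg π hF10 j _) (Finset.mem_range.mpr (Nat.succ_pos n))
    calc avg π ((avg π)^[n] F0) y
        ≤ (1 / 5) * ∑ s : Lt, ∑ j ∈ Finset.range (n + 1), (avg π)^[j] F1 (π (lt s) y) := by
          unfold avg
          apply mul_le_mul_of_nonneg_left _ (by norm_num)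
          exact Finset.sum_le_sum fun s _ => h1 s
      _ = ∑ j ∈ Finset.range (n + 1), (avg π)^[j + 1] F1 y := by
          rw [Finset.sum_comm, Finset.mul_sum]
          apply Finset.sum_congr rfl
          intro j _
          rw [Function.iterate_succ_apply']
          rfl
      _ ≤ ∑ j ∈ Finset.range (n + 1), (avg π)^[j + 1] F1 y + (avg π)^[0] F1 y := by
          have := iter_nonneg π hF10 0 y
          linarith
      _ = _ := (Finset.sum_range_succ' (fun j => (avg π)^[j] F1 y) (n + 1)).symm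

end TPhi

open TPhi in
/-- the probability of a displacement at least D is small -/
theorem tail_phi (π : F2 →* Equiv.Perm ℤ) (φ : ℤ → ℝ)
    (hπ : ∀ (x : Bool) (n : ℤ), |φ (π (FreeGroup.of x) n) - φ n| ≤ 1)
    (hweighted : ∀ (W : ℤ → ℝ) (δ : ℝ), (∀ n, 0 < W n) →
      (∀ (s : Lt) (n : ℤ), W (π (lt s) n) - W n ≤ δ * W n) →
      ∀ f : ℤ → ℝ, (Function.support f).Finite →
        ∑' n, W n * (avg π f n) ^ 2 ≤ (1 + δ ^ 2) * ∑' n, W n * (f n) ^ 2)
    (c z : ℤ) (D : ℝ) (hD : 1 ≤ D) (hz : |φ z - φ c| ≤ D + 1) (S : Finset ℤ)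
    (hS : ∀ y, |φ y - φ c| ≤ 3 * (D + 1) → y ∈ S) (lam : ℝ) (h0 : 0 ≤ lam) (h1 : lam ≤ 1)
    (n : ℕ) :
    (((words n).filter (fun l => D ≤ |φ (π (ev l) z) - φ z|)).card : ℝ) ≤
      (n + 1) * Real.sqrt (S.card * Real.exp (-lam * D + 4 * lam ^ 2 * n)) * 5 ^ n := by
  have hs := fun s m => tail_disp hπ s m
  set F0 : ℤ → ℝ := fun y => if D ≤ |φ y - φ z| then 1 else 0 with hF0
  set F1 : ℤ → ℝ := fun y => if D ≤ |φ y - φ z| ∧ |φ y - φ z| ≤ D + 1 then 1 else 0 with hF1
  have hcount : (((words n).filter (fun l => D ≤ |φ (π (ev l) z) - φ z|)).card : ℝ)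
      = 5 ^ n * (avg π)^[n] F0 z := by
    rw [← tail_words, Finset.card_filter]
    push_cast
    rfl
  have hF10 : ∀ y, 0 ≤ F1 y := by
    intro y
    rw [hF1]
    simp only
    split_ifs <;> norm_num
  have hexit := first_exit π φ hs (φ z) D F0 F1
    (fun y hy => by
      rw [hF0]
      simp only
      rw [if_neg (not_le.mpr hy)])
    (fun y => by
      rw [hF0]
      simp only
      split_ifs <;> norm_num) hF10
    (fun y h2 h3 => by
      rw [hF1]
      simp only
      rw [if_pos ⟨h2, h3⟩]) n z (by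
      rw [sub_self, abs_zero]
      linarith)
  -- weights
  set W : ℤ → ℝ := fun y => Real.exp (lam * |φ y - φ z|) with hW
  set δ : ℝ := Real.exp lam - 1 with hδ
  have hWpos : ∀ y, 0 < W y := fun y => Real.exp_pos _
  have hWd : ∀ (s : Lt) (k : ℤ), W (π (lt s) k) - W k ≤ δ * W k := by
    intro s k
    have h2 : W (π (lt s) k) ≤ Real.exp lam * W k := by
      rw [hW]
      simp only
      rw [← Real.exp_add]
      apply Real.exp_le_exp.2
      have h3 := hs s k
      have h4 : φ (π (lt s) k) - φ z = (φ (π (lt s) k) - φ k) + (φ k - φ z) := by ring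
      have h5 : |φ (π (lt s) k) - φ z| ≤ 1 + |φ k - φ z| := by
        rw [h4]
        exact (abs_add_le _ _).trans (add_le_add h3 le_rfl)
      have h6 := mul_le_mul_of_nonneg_left h5 h0
      linarith
    rw [hδ]
    linarith
  have hδ0 : 0 ≤ δ := by
    rw [hδ]
    have := Real.one_le_exp h0
    linarith
  have hδ1 : δ ≤ 2 * lam := by
    have h2 := Real.abs_exp_sub_one_le (x := lam) (by rw [abs_of_nonneg h0]; exact h1)
    rw [abs_of_nonneg h0] at h2
    exact (le_abs_self _).trans h2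
  have hδ2 : ∀ j : ℕ, j ≤ n → (1 + δ ^ 2) ^ j ≤ Real.exp (4 * lam ^ 2 * n) := by
    intro j hj
    have h2 : 1 + δ ^ 2 ≤ Real.exp (δ ^ 2) := by
      have := Real.add_one_le_exp (δ ^ 2)
      linarith
    have h3 : δ ^ 2 ≤ 4 * lam ^ 2 := by
      calc δ ^ 2 ≤ (2 * lam) ^ 2 := pow_le_pow_left₀ hδ0 hδ1 2
        _ = _ := by ring
    have hjn : (j : ℝ) ≤ n := by exact_mod_cast hj
    calc (1 + δ ^ 2) ^ j ≤ (Real.exp (δ ^ 2)) ^ j := pow_le_pow_left₀ (by positivity) h2 j
      _ = Real.exp (j * δ ^ 2) := (Real.exp_nat_mul _ _).symm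
      _ ≤ Real.exp (4 * lam ^ 2 * n) := by
        apply Real.exp_le_exp.2
        have h4 : (j : ℝ) * δ ^ 2 ≤ n * (4 * lam ^ 2) :=
          mul_le_mul hjn h3 (by positivity) (by positivity)
        linarith
  have hband : ∀ y, y ∉ S → F1 y = 0 := by
    intro y hy
    rw [hF1]
    simp only
    rw [if_neg]
    rintro ⟨-, h3⟩
    apply hy
    apply hS
    have h4 : φ y - φ c = (φ y - φ z) + (φ z - φ c) := by ring
    rw [h4]
    refine (abs_add_le _ _).trans ?_
    linarith
  have hj : ∀ j ∈ Finset.range (n + 1), (avg π)^[j] F1 z ≤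
      Real.sqrt (S.card * Real.exp (-lam * D + 4 * lam ^ 2 * n)) := by
    intro j hj
    have hjn : j ≤ n := by
      have := Finset.mem_range.mp hj
      omega
    set p : ℤ → ℝ := (avg π)^[j] (Pi.single z 1) with hp
    have h4 := tail_adj_iter π j (f := Pi.single z 1) (g := F1) (tail_single_fin z)
    have h5 : ∑' y, (Pi.single z (1 : ℝ) : ℤ → ℝ) y * (avg π)^[j] F1 y = (avg π)^[j] F1 z := by
      rw [tsum_eq_single z]
      · rw [Pi.single_eq_same, one_mul]
      · intro y hy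
        rw [Pi.single_eq_of_ne hy, zero_mul]
    have h6 : ∑' y, p y * F1 y = ∑ y ∈ S, p y * F1 y := by
      apply tsum_eq_sum
      intro y hy
      rw [hband y hy, mul_zero]
    have h7 : (avg π)^[j] F1 z = ∑ y ∈ S, p y * F1 y := by rw [← h5, ← h4, h6]
    rw [h7]
    apply Real.le_sqrt_of_sq_le
    have hw := tail_weight π hweighted W δ hWpos hWd z j
    have hWz : W z = 1 := by
      rw [hW]
      simp
    rw [hWz, mul_one] at hw
    have hsumm : Summable (fun y => W y * (p y) ^ 2) := by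
      apply summable_of_hasFiniteSupport
      apply (tail_fin_iter π j (tail_single_fin z)).subset
      intro y hy hne
      apply hy
      show W y * (p y) ^ 2 = 0
      have : p y = 0 := hne
      rw [this]
      simp
    have hw2 : ∑ y ∈ S, W y * (p y) ^ 2 ≤ ∑' y, W y * (p y) ^ 2 :=
      hsumm.sum_le_tsum S (fun y _ => mul_nonneg (hWpos y).le (sq_nonneg _))
    have hw3 : ∑ y ∈ S, W y * (p y) ^ 2 ≤ Real.exp (4 * lam ^ 2 * n) :=
      hw2.trans (hw.trans (hδ2 j hjn))
    have hstep : ∀ y ∈ S, (p y * F1 y) ^ 2 ≤ Real.exp (-lam * D) * (W y * (p y) ^ 2) := by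
      intro y _
      by_cases hy : D ≤ |φ y - φ z| ∧ |φ y - φ z| ≤ D + 1
      · have h2 : F1 y = 1 := by
          rw [hF1]
          simp only
          rw [if_pos hy]
        rw [h2, mul_one, ← mul_assoc]
        have h3 : 1 ≤ Real.exp (-lam * D) * W y := by
          rw [hW]
          simp only
          rw [← Real.exp_add]
          apply Real.one_le_exp
          have h5 := mul_le_mul_of_nonneg_left hy.1 h0
          linarith
        calc (p y) ^ 2 = 1 * (p y) ^ 2 := (one_mul _).symm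
          _ ≤ _ := mul_le_mul_of_nonneg_right h3 (sq_nonneg _)
      · have h2 : F1 y = 0 := by
          rw [hF1]
          simp only
          rw [if_neg hy]
        rw [h2, mul_zero]
        have h3 : 0 ≤ Real.exp (-lam * D) * (W y * (p y) ^ 2) :=
          mul_nonneg (Real.exp_pos _).le (mul_nonneg (hWpos y).le (sq_nonneg _))
        simpa using h3
    calc (∑ y ∈ S, p y * F1 y) ^ 2 ≤ (S.card : ℝ) * ∑ y ∈ S, (p y * F1 y) ^ 2 :=
          sq_sum_le_card_mul_sum_sq
      _ ≤ (S.card : ℝ) * ∑ y ∈ S, Real.exp (-lam * D) * (W y * (p y) ^ 2) :=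
          mul_le_mul_of_nonneg_left (Finset.sum_le_sum hstep) (Nat.cast_nonneg _)
      _ = S.card * (Real.exp (-lam * D) * ∑ y ∈ S, W y * (p y) ^ 2) := by
          rw [← Finset.mul_sum]
      _ ≤ S.card * (Real.exp (-lam * D) * Real.exp (4 * lam ^ 2 * n)) := by
          apply mul_le_mul_of_nonneg_left _ (Nat.cast_nonneg _)
          exact mul_le_mul_of_nonneg_left hw3 (Real.exp_pos _).le
      _ = _ := by rw [← Real.exp_add]
  rw [hcount]
  have hsum := hexit.trans (Finset.sum_le_sum hj)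
  rw [Finset.sum_const, Finset.card_range, nsmul_eq_mul] at hsum
  have h5 : (0:ℝ) < 5 ^ n := by positivity
  calc 5 ^ n * (avg π)^[n] F0 z ≤ 5 ^ n * (((n + 1 : ℕ) : ℝ) *
        Real.sqrt (S.card * Real.exp (-lam * D + 4 * lam ^ 2 * n))) :=
        mul_le_mul_of_nonneg_left hsum h5.le
    _ = _ := by
        push_cast
        ring

end LEB

end Pool.Agent.Helper894.FS
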