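import Pool.Agent.Helper894.FS.Defs

namespace Pool.Agent.Helper894.FS

namespace LEC

open scoped BigOperators



theorem card_words10745 (n : ℕ) : (words n).card = 5 ^ n := by
  induction n with
  | zero => simp [words]
  | succ n ih =>
    rw [words, Finset.card_map, Finset.card_product, ih, Finset.card_univ]
    have : Fintype.card Lt = 5 := by decide
    rw [this, pow_succ, mul_comm]

open Classical in
noncomputable def badQ (Q : List Lt → ℤ → Prop) (I : Finset ℤ) (n : ℕ) :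
    Finset (List Lt) :=
  (words n).filter (fun l => ∃ t, t <:+ l ∧ ∃ z ∈ I, Q t z)

theorem mem_badQ (Q : List Lt → ℤ → Prop) (I : Finset ℤ) (n : ℕ) (l : List Lt) :
    l ∈ badQ Q I n ↔ l ∈ words n ∧ ∃ t, t <:+ l ∧ ∃ z ∈ I, Q t z := by
  classical
  unfold badQ
  exact Finset.mem_filter

open Classical in
theorem badQ_card (Q : List Lt → ℤ → Prop) (I : Finset ℤ) (N : ℕ) (β : ℝ)
    (hb : ∀ n ≤ N, ∀ z ∈ I,
      (((words n).filter (fun l => Q l z)).card : ℝ) ≤ β * 5 ^ n) (n : ℕ)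
    (hn : n ≤ N) :
    ((badQ Q I n).card : ℝ) ≤ (n + 1) * I.card * β * 5 ^ n := by
  have htop : ∀ n ≤ N, ((I.biUnion
      (fun z => (words n).filter (fun l => Q l z))).card : ℝ) ≤
      I.card * (β * 5 ^ n) := by
    intro n hn
    have h1 : (I.biUnion (fun z => (words n).filter (fun l => Q l z))).card ≤
      ∑ z ∈ I, ((words n).filter (fun l => Q l z)).card := Finset.card_biUnion_le
    calc ((I.biUnion (fun z => (words n).filter (fun l => Q l z))).card : ℝ)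
        ≤ ((∑ z ∈ I, ((words n).filter (fun l => Q l z)).card : ℕ) : ℝ) := by
          exact_mod_cast h1
      _ = ∑ z ∈ I, (((words n).filter (fun l => Q l z)).card : ℝ) := by
          push_cast; rfl
      _ ≤ ∑ z ∈ I, β * 5 ^ n := Finset.sum_le_sum fun z hz => hb n hn z hz
      _ = _ := by rw [Finset.sum_const, nsmul_eq_mul]
  induction n with
  | zero =>
    have h1 : badQ Q I 0 ⊆
        I.biUnion (fun z => (words 0).filter (fun l => Q l z)) := by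
      intro l hl
      unfold badQ at hl
      rw [Finset.mem_filter] at hl
      obtain ⟨h1, t, ht, z, hz, h2⟩ := hl
      have h3 : l = [] := by simpa [words] using h1
      subst h3
      have h4 : t = [] := List.suffix_nil.mp ht
      subst h4
      rw [Finset.mem_biUnion]
      exact ⟨z, hz, Finset.mem_filter.mpr ⟨h1, h2⟩⟩
    have h2 := htop 0 hn
    refine ((Nat.cast_le (α := ℝ)).mpr (Finset.card_le_card h1)).trans (h2.trans (le_of_eq ?_))
    push_cast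
    ring
  | succ n ih =>
    have ih' := ih (by omega)
    have h1 : badQ Q I (n + 1) ⊆
        (Finset.univ ×ˢ badQ Q I n).image (fun p : Lt × List Lt => p.1 :: p.2) ∪
        I.biUnion (fun z => (words (n + 1)).filter (fun l => Q l z)) := by
      intro l hl
      unfold badQ at hl
      rw [Finset.mem_filter] at hl
      obtain ⟨h1, t, ht, z, hz, h2⟩ := hl
      have h1' := h1
      rw [words, Finset.mem_map] at h1'
      obtain ⟨⟨s, l'⟩, h3, h4⟩ := h1'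
      rw [Finset.mem_product] at h3
      have h5 : l = s :: l' := h4.symm
      rw [h5] at ht
      rcases List.suffix_cons_iff.mp ht with h6 | h6
      · rw [Finset.mem_union]
        right
        rw [Finset.mem_biUnion]
        refine ⟨z, hz, Finset.mem_filter.mpr ⟨h1, ?_⟩⟩
        rw [h5, ← h6]
        exact h2
      · rw [Finset.mem_union]
        left
        rw [Finset.mem_image]
        refine ⟨(s, l'), Finset.mem_product.mpr ⟨Finset.mem_univ _, ?_⟩, h5.symm⟩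
        unfold badQ
        rw [Finset.mem_filter]
        exact ⟨h3.2, t, h6, z, hz, h2⟩
    have h2 := htop (n + 1) hn
    have h3 : (badQ Q I (n + 1)).card ≤ 5 * (badQ Q I n).card +
        (I.biUnion (fun z => (words (n + 1)).filter (fun l => Q l z))).card := by
      refine (Finset.card_le_card h1).trans ((Finset.card_union_le _ _).trans ?_)
      refine Nat.add_le_add_right ?_ _
      refine Finset.card_image_le.trans ?_
      rw [Finset.card_product, Finset.card_univ]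
      have : Fintype.card Lt = 5 := by decide
      rw [this]
    calc ((badQ Q I (n + 1)).card : ℝ) ≤ 5 * ((badQ Q I n).card : ℝ) +
        ((I.biUnion (fun z => (words (n + 1)).filter
          (fun l => Q l z))).card : ℝ) := by exact_mod_cast h3
      _ ≤ 5 * ((n + 1) * I.card * β * 5 ^ n) + I.card * (β * 5 ^ (n + 1)) := by
          linarith
      _ = _ := by push_cast; ring

theorem growth10745 (A m : ℕ) : ∃ j : ℕ, 1 ≤ j ∧ m ≤ j ^ 2 + 1 ∧
    ((j : ℝ) ^ 3 + 1) ^ 2 * ((2 * (A * (j ^ 2 + 1)) + 1 : ℕ) : ℝ) *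
      Real.sqrt (((2 * (A * (j ^ 2 + 1)) + 1 : ℕ) : ℝ) * Real.exp (-(j : ℝ) / 16)) ≤ 1 / 2 ∧
    4 * (((2 * (A * (j ^ 2 + 1)) + 1 : ℕ) : ℝ) ^ (2 * (A * (j ^ 2 + 1)) + 1)) ^ 2 * 20 ^ (j ^ 3) <
      25 ^ (j ^ 3) := by
  have h0 : Filter.Tendsto (fun n : ℕ => (n : ℝ) ^ (24 * A + 7) / (5 / 4 : ℝ) ^ n) Filter.atTop
      (nhds 0) := tendsto_pow_const_div_const_pow_of_one_lt _ (by norm_num)
  have h1 : ∀ᶠ n : ℕ in Filter.atTop, (n : ℝ) ^ (24 * A + 7) / (5 / 4 : ℝ) ^ n < 1 :=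
    h0.eventually_lt_const (by norm_num)
  have h2 : Filter.Tendsto (fun n : ℕ => (n : ℝ) ^ 21 / (Real.exp (1 / 16)) ^ n) Filter.atTop
      (nhds 0) := tendsto_pow_const_div_const_pow_of_one_lt _ (by
        rw [Real.one_lt_exp_iff]; norm_num)
  have h3 : ∀ᶠ n : ℕ in Filter.atTop, (n : ℝ) ^ 21 / (Real.exp (1 / 16)) ^ n < 1 / 64 :=
    h2.eventually_lt_const (by norm_num)
  obtain ⟨j, hj1, hj2, hj3, hj4⟩ := (h1.and (h3.and ((Filter.eventually_ge_atTop (4 * A + 4)).and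
    (Filter.eventually_ge_atTop m)))).exists
  have hj0 : 4 ≤ j := by omega
  have hjp : 0 < j := by omega
  have hjR : (4 : ℝ) ≤ (j : ℝ) := by exact_mod_cast hj0
  have hjR1 : (1 : ℝ) ≤ (j : ℝ) := by linarith
  have hjR0 : (0 : ℝ) < (j : ℝ) := by linarith
  have hK1 : 2 * (A * (j ^ 2 + 1)) + 1 ≤ (4 * A + 1) * j ^ 2 := by nlinarith [Nat.one_le_pow 2 j hjp]
  have hK2 : 2 * (A * (j ^ 2 + 1)) + 1 ≤ j ^ 3 := by
    refine hK1.trans ?_
    have : (4 * A + 1) * j ^ 2 ≤ j * j ^ 2 := Nat.mul_le_mul_right _ (by omega)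
    calc (4 * A + 1) * j ^ 2 ≤ j * j ^ 2 := this
      _ = j ^ 3 := by ring
  have hKR : ((2 * (A * (j ^ 2 + 1)) + 1 : ℕ) : ℝ) ≤ (j : ℝ) ^ 3 := by exact_mod_cast hK2
  have hKp : (0 : ℝ) < ((2 * (A * (j ^ 2 + 1)) + 1 : ℕ) : ℝ) := by positivity
  refine ⟨j, by omega, ?_, ?_, ?_⟩
  · nlinarith
  · have hexp : Real.exp (-(j : ℝ) / 16) = 1 / (Real.exp (1 / 16)) ^ j := by
      rw [← Real.exp_nat_mul, one_div, ← Real.exp_neg]
      congr 1
      ring
    have hE : (0 : ℝ) < (Real.exp (1 / 16)) ^ j := by positivity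
    have h4 : (j : ℝ) ^ 21 ≤ (Real.exp (1 / 16)) ^ j / 64 := by
      rw [div_lt_iff₀ hE] at hj2
      linarith
    have h5 : ((2 * (A * (j ^ 2 + 1)) + 1 : ℕ) : ℝ) * Real.exp (-(j : ℝ) / 16) ≤
        (1 / (8 * (j : ℝ) ^ 9)) ^ 2 := by
      rw [hexp]
      calc ((2 * (A * (j ^ 2 + 1)) + 1 : ℕ) : ℝ) * (1 / (Real.exp (1 / 16)) ^ j)
          ≤ (j : ℝ) ^ 3 * (1 / (Real.exp (1 / 16)) ^ j) :=
            mul_le_mul_of_nonneg_right hKR (by positivity)
        _ ≤ (1 / (8 * (j : ℝ) ^ 9)) ^ 2 := by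
            rw [mul_one_div, div_pow, one_pow, div_le_div_iff₀ hE (by positivity)]
            nlinarith
    have h6 : Real.sqrt (((2 * (A * (j ^ 2 + 1)) + 1 : ℕ) : ℝ) * Real.exp (-(j : ℝ) / 16)) ≤
        1 / (8 * (j : ℝ) ^ 9) := by
      refine (Real.sqrt_le_sqrt h5).trans (le_of_eq (Real.sqrt_sq (by positivity)))
    have h7 : ((j : ℝ) ^ 3 + 1) ^ 2 ≤ (2 * (j : ℝ) ^ 3) ^ 2 := by
      refine pow_le_pow_left₀ (by positivity) ?_ 2
      nlinarith [one_le_pow₀ hjR1 (n := 3)]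
    calc ((j : ℝ) ^ 3 + 1) ^ 2 * ((2 * (A * (j ^ 2 + 1)) + 1 : ℕ) : ℝ) *
      Real.sqrt (((2 * (A * (j ^ 2 + 1)) + 1 : ℕ) : ℝ) * Real.exp (-(j : ℝ) / 16))
        ≤ (2 * (j : ℝ) ^ 3) ^ 2 * (j : ℝ) ^ 3 * (1 / (8 * (j : ℝ) ^ 9)) := by
          refine mul_le_mul (mul_le_mul h7 hKR hKp.le (by positivity)) h6 (by positivity)
            (by positivity)
      _ = 1 / 2 := by
          field_simp
          norm_num
  · have hD : (((2 * (A * (j ^ 2 + 1)) + 1 : ℕ) : ℝ) ^ (2 * (A * (j ^ 2 + 1)) + 1)) ≤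
        (j : ℝ) ^ (3 * (4 * A + 1) * j ^ 2) := by
      calc (((2 * (A * (j ^ 2 + 1)) + 1 : ℕ) : ℝ) ^ (2 * (A * (j ^ 2 + 1)) + 1))
          ≤ ((j : ℝ) ^ 3) ^ (2 * (A * (j ^ 2 + 1)) + 1) := pow_le_pow_left₀ (Nat.cast_nonneg _) hKR _
        _ ≤ ((j : ℝ) ^ 3) ^ ((4 * A + 1) * j ^ 2) := pow_le_pow_right₀ (one_le_pow₀ hjR1) hK1
        _ = _ := by rw [← pow_mul]; ring_nf
    have hE : (4 : ℝ) ≤ (j : ℝ) ^ (j ^ 2) := by
      calc (4 : ℝ) ≤ (j : ℝ) := hjR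
        _ = (j : ℝ) ^ 1 := (pow_one _).symm
        _ ≤ (j : ℝ) ^ (j ^ 2) := pow_le_pow_right₀ hjR1 (Nat.one_le_pow _ _ hjp)
    have hF : 4 * (((2 * (A * (j ^ 2 + 1)) + 1 : ℕ) : ℝ) ^ (2 * (A * (j ^ 2 + 1)) + 1)) ^ 2 ≤
        ((j : ℝ) ^ (24 * A + 7)) ^ (j ^ 2) := by
      calc 4 * (((2 * (A * (j ^ 2 + 1)) + 1 : ℕ) : ℝ) ^ (2 * (A * (j ^ 2 + 1)) + 1)) ^ 2
          ≤ (j : ℝ) ^ (j ^ 2) * ((j : ℝ) ^ (3 * (4 * A + 1) * j ^ 2)) ^ 2 := by
            refine mul_le_mul hE (pow_le_pow_left₀ (by positivity) hD 2) (by positivity)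
              (by positivity)
        _ = ((j : ℝ) ^ (24 * A + 7)) ^ (j ^ 2) := by
            rw [← pow_mul, ← pow_mul, ← pow_add]
            congr 1
            ring
    have hG : (j : ℝ) ^ (24 * A + 7) < (5 / 4 : ℝ) ^ j := by
      rwa [div_lt_one (by positivity)] at hj1
    have hH : ((j : ℝ) ^ (24 * A + 7)) ^ (j ^ 2) < ((5 / 4 : ℝ) ^ j) ^ (j ^ 2) :=
      pow_lt_pow_left₀ hG (by positivity) (by positivity)
    have h3' : j * j ^ 2 = j ^ 3 := by ring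
    calc 4 * (((2 * (A * (j ^ 2 + 1)) + 1 : ℕ) : ℝ) ^ (2 * (A * (j ^ 2 + 1)) + 1)) ^ 2 * 20 ^ (j ^ 3)
        < ((5 / 4 : ℝ) ^ j) ^ (j ^ 2) * 20 ^ (j ^ 3) := by
          refine mul_lt_mul_of_pos_right (lt_of_le_of_lt hF hH) (by positivity)
      _ = 25 ^ (j ^ 3) := by
          rw [← pow_mul, h3', ← mul_pow]
          norm_num

/-- barriers exist at all points with linear growth at a suitable scale -/
theorem barriers_phi
    (hK : ∀ n : ℕ, (((words n ×ˢ words n).filter (fun p => ev p.1 = ev p.2)).card : ℝ) ≤ 20 ^ n)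
    (hbar : ∀ (π : F2 →* Equiv.Perm ℤ) (φ : ℤ → ℝ), StrictMono φ →
      (∀ (x : Bool) (n : ℤ), |φ (π (FreeGroup.of x) n) - φ n| ≤ 1) → ∀ (c : ℤ) (D : ℝ),
      0 < D → ∀ l l' : List Lt,
      (∀ t, t <:+ l → ∀ z : ℤ, |φ z - φ c| ≤ D + 1 → |φ (π (ev t) z) - φ z| < D) →
      (∀ t, t <:+ l' → ∀ z : ℤ, |φ z - φ c| ≤ D + 1 → |φ (π (ev t) z) - φ z| < D) →
      (∀ z : ℤ, |φ z - φ c| ≤ D + 1 → π (ev l) z = π (ev l') z) →
      Bar π ((ev l)⁻¹ * ev l') c)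
    (htail : ∀ (π : F2 →* Equiv.Perm ℤ) (φ : ℤ → ℝ),
      (∀ (x : Bool) (n : ℤ), |φ (π (FreeGroup.of x) n) - φ n| ≤ 1) →
      ∀ (c z : ℤ) (D : ℝ), 1 ≤ D → |φ z - φ c| ≤ D + 1 → ∀ S : Finset ℤ,
      (∀ y, |φ y - φ c| ≤ 3 * (D + 1) → y ∈ S) → ∀ lam : ℝ, 0 ≤ lam → lam ≤ 1 → ∀ n : ℕ,
      (((words n).filter (fun l => D ≤ |φ (π (ev l) z) - φ z|)).card : ℝ) ≤
      (n + 1) * Real.sqrt (S.card * Real.exp (-lam * D + 4 * lam ^ 2 * n)) * 5 ^ n)
    (A m : ℕ) :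
    ∃ L ≥ m, ∃ G₀ : Finset F2, (∀ g ∈ G₀, g ≠ 1) ∧
      ∀ (π : F2 →* Equiv.Perm ℤ) (φ : ℤ → ℝ), StrictMono φ →
      (∀ (x : Bool) (n : ℤ), |φ (π (FreeGroup.of x) n) - φ n| ≤ 1) → ∀ c : ℤ,
      (∀ y : ℤ, |φ y - φ c| ≤ 3 * (L : ℝ) → |y - c| ≤ A * L) → ∃ g ∈ G₀, Bar π g c := by
  classical
  obtain ⟨j, hj0, hjm, hj1, hj3⟩ := growth10745 A m
  refine ⟨j ^ 2 + 1, hjm,
    ((words (j ^ 3) ×ˢ words (j ^ 3)).image (fun p => (ev p.1)⁻¹ * ev p.2)).filter (· ≠ 1),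
    fun g hg => (Finset.mem_filter.mp hg).2, fun π φ hφ hπ c hlin => ?_⟩
  by_contra hno
  have hjR : (1 : ℝ) ≤ (j : ℝ) := by exact_mod_cast hj0
  have hjR0 : (0 : ℝ) < (j : ℝ) := by linarith
  set D : ℝ := (j : ℝ) ^ 2 with hD
  have hD1 : 1 ≤ D := one_le_pow₀ hjR
  have hL : ((j ^ 2 + 1 : ℕ) : ℝ) = D + 1 := by push_cast; rfl
  rw [hL] at hlin
  set S : Finset ℤ := Finset.Icc (c - A * (j ^ 2 + 1 : ℕ)) (c + A * (j ^ 2 + 1 : ℕ)) with hS
  have hScard : S.card = 2 * (A * (j ^ 2 + 1)) + 1 := by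
    rw [hS, Int.card_Icc]
    have : (A : ℤ) * ((j ^ 2 + 1 : ℕ) : ℤ) = ((A * (j ^ 2 + 1) : ℕ) : ℤ) := by push_cast; ring
    rw [this]
    omega
  have hSmem : ∀ y : ℤ, |φ y - φ c| ≤ 3 * (D + 1) → y ∈ S := by
    intro y hy
    have h1 := abs_le.1 (hlin y hy)
    rw [hS, Finset.mem_Icc]
    constructor <;> linarith [h1.1, h1.2]
  set I : Finset ℤ := S.filter (fun z => |φ z - φ c| ≤ D + 1) with hI
  have hmemI : ∀ z : ℤ, z ∈ I ↔ |φ z - φ c| ≤ D + 1 := by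
    intro z
    rw [hI, Finset.mem_filter]
    constructor
    · exact fun h => h.2
    · exact fun h => ⟨hSmem z (by linarith), h⟩
  have hIS : I.card ≤ S.card := Finset.card_filter_le _ _
  let Q : List Lt → ℤ → Prop := fun l z => D ≤ |φ (π (ev l) z) - φ z|
  set K : ℝ := ((2 * (A * (j ^ 2 + 1)) + 1 : ℕ) : ℝ) with hK'
  have hKS : (S.card : ℝ) = K := by rw [hScard]
  have hKp : 0 < K := by rw [hK']; positivity
  have htl : ∀ t ≤ j ^ 3, ∀ z ∈ I, (((words t).filter (fun l => Q l z)).card : ℝ) ≤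
      (((j : ℝ) ^ 3 + 1) * Real.sqrt (K * Real.exp (-(j : ℝ) / 16))) * 5 ^ t := by
    intro t ht z hz
    have h1 := htail π φ hπ c z D hD1 ((hmemI z).1 hz) S hSmem (1 / (8 * j)) (by positivity)
      (by rw [div_le_one (by positivity)]; linarith) t
    have ht' : (t : ℝ) ≤ (j : ℝ) ^ 3 := by exact_mod_cast ht
    have h2 : -(1 / (8 * (j : ℝ))) * D + 4 * (1 / (8 * (j : ℝ))) ^ 2 * t ≤ -(j : ℝ) / 16 := by
      have h3 : 4 * (1 / (8 * (j : ℝ))) ^ 2 * t ≤ 4 * (1 / (8 * (j : ℝ))) ^ 2 * (j : ℝ) ^ 3 :=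
        mul_le_mul_of_nonneg_left ht' (by positivity)
      have h4 : -(1 / (8 * (j : ℝ))) * D + 4 * (1 / (8 * (j : ℝ))) ^ 2 * (j : ℝ) ^ 3 =
          -(j : ℝ) / 16 := by
        rw [hD]
        field_simp
        ring
      linarith
    have h5 : Real.sqrt (S.card * Real.exp (-(1 / (8 * (j : ℝ))) * D +
        4 * (1 / (8 * (j : ℝ))) ^ 2 * t)) ≤ Real.sqrt (K * Real.exp (-(j : ℝ) / 16)) := by
      rw [hKS]
      exact Real.sqrt_le_sqrt (mul_le_mul_of_nonneg_left (Real.exp_le_exp.2 h2) hKp.le)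
    refine le_trans (le_of_eq ?_) (h1.trans ?_)
    · congr!
    · refine mul_le_mul_of_nonneg_right ?_ (by positivity)
      refine mul_le_mul ?_ h5 (Real.sqrt_nonneg _) (by positivity)
      linarith
  have hbad := badQ_card Q I (j ^ 3) _ htl (j ^ 3) le_rfl
  have hbad2 : ((badQ Q I (j ^ 3)).card : ℝ) ≤ 5 ^ (j ^ 3) / 2 := by
    refine hbad.trans ?_
    have hIK : (I.card : ℝ) ≤ K := by
      rw [← hKS]; exact_mod_cast hIS
    have h2 : ((((j ^ 3 : ℕ) : ℝ) + 1) * (I.card : ℝ) *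
        (((j : ℝ) ^ 3 + 1) * Real.sqrt (K * Real.exp (-(j : ℝ) / 16)))) ≤ 1 / 2 := by
      refine le_trans ?_ hj1
      rw [Nat.cast_pow]
      have h3 : (((j : ℝ) ^ 3 + 1) * (I.card : ℝ) *
        (((j : ℝ) ^ 3 + 1) * Real.sqrt (K * Real.exp (-(j : ℝ) / 16)))) =
        (((j : ℝ) ^ 3 + 1) ^ 2 * Real.sqrt (K * Real.exp (-(j : ℝ) / 16))) * (I.card : ℝ) := by
        ring
      have h4 : ((j : ℝ) ^ 3 + 1) ^ 2 * K * Real.sqrt (K * Real.exp (-(j : ℝ) / 16)) =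
        (((j : ℝ) ^ 3 + 1) ^ 2 * Real.sqrt (K * Real.exp (-(j : ℝ) / 16))) * K := by
        ring
      rw [h3, h4]
      exact mul_le_mul_of_nonneg_left hIK (by positivity)
    calc _ ≤ 1 / 2 * (5 : ℝ) ^ (j ^ 3) := mul_le_mul_of_nonneg_right h2 (by positivity)
      _ = _ := by ring
  set Good : Finset (List Lt) := words (j ^ 3) \ badQ Q I (j ^ 3) with hGood
  have hGoodmem : ∀ l ∈ Good, ∀ t, t <:+ l → ∀ z : ℤ, |φ z - φ c| ≤ D + 1 →
      |φ (π (ev t) z) - φ z| < D := by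
    intro l hl t ht z hz
    rw [hGood, Finset.mem_sdiff] at hl
    by_contra hcon
    push Not at hcon
    apply hl.2
    rw [mem_badQ]
    exact ⟨hl.1, t, ht, z, (hmemI z).mpr hz, hcon⟩
  have hGoodcard : (5 : ℝ) ^ (j ^ 3) / 2 ≤ (Good.card : ℝ) := by
    have h1 : (words (j ^ 3)).card ≤ Good.card + (badQ Q I (j ^ 3)).card := by
      have := Finset.card_le_card_sdiff_add_card (s := words (j ^ 3))
        (t := badQ Q I (j ^ 3))
      exact this
    rw [card_words10745] at h1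
    have h2 : ((5 : ℝ) ^ (j ^ 3)) ≤ (Good.card : ℝ) +
        ((badQ Q I (j ^ 3)).card : ℝ) := by exact_mod_cast h1
    linarith
  have hsame : ∀ l ∈ Good, ∀ l' ∈ Good, (∀ z : ℤ, z ∈ I → π (ev l) z = π (ev l') z) →
      ev l = ev l' := by
    intro l hl l' hl' h
    by_contra hne
    apply hno
    refine ⟨(ev l)⁻¹ * ev l', ?_, ?_⟩
    · rw [Finset.mem_filter, Finset.mem_image]
      refine ⟨⟨(l, l'), Finset.mem_product.mpr ⟨?_, ?_⟩, rfl⟩, ?_⟩
      · exact (Finset.mem_sdiff.mp hl).1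
      · exact (Finset.mem_sdiff.mp hl').1
      · intro h1
        exact hne (inv_mul_eq_one.mp h1)
    · exact hbar π φ hφ hπ c D (by linarith) l l' (hGoodmem l hl) (hGoodmem l' hl')
        (fun z hz => h z ((hmemI z).mpr hz))
  -- pigeonhole
  set T : Finset (↥I → ℤ) := Fintype.piFinset (fun _ : ↥I => S) with hT
  have hTcard : (T.card : ℝ) ≤ K ^ (2 * (A * (j ^ 2 + 1)) + 1) := by
    rw [hT, Fintype.card_piFinset, Finset.prod_const, Finset.card_univ,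
      Fintype.card_coe, Nat.cast_pow, hKS]
    refine pow_le_pow_right₀ ?_ (hScard ▸ hIS)
    rw [hK']
    exact_mod_cast Nat.le_add_left 1 _
  have hTpos : 0 < T.card := by
    rw [hT, Fintype.card_piFinset, Finset.prod_const]
    refine pow_pos ?_ _
    rw [hScard]; omega
  have hmaps : ∀ l ∈ Good, (fun z : ↥I => π (ev l) (z : ℤ)) ∈ T := by
    intro l hl
    rw [hT, Fintype.mem_piFinset]
    intro z
    have h1 := (hmemI z).mp z.2
    have h2 := hGoodmem l hl l List.suffix_rfl z h1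
    apply hSmem
    rw [abs_le] at h1
    rw [abs_lt] at h2
    rw [abs_le]
    constructor <;> linarith [h1.1, h1.2, h2.1, h2.2]
  obtain ⟨f, -, hf⟩ := Finset.exists_le_card_fiber_of_nsmul_le_card_of_maps_to
    (s := Good) (t := T) (f := fun l => (fun z : ↥I => π (ev l) (z : ℤ)))
    (b := (Good.card : ℝ) / T.card) hmaps (Finset.card_pos.mp hTpos) (by
      rw [nsmul_eq_mul, mul_div_cancel₀ _ (by exact_mod_cast hTpos.ne')])
  set Fb : Finset (List Lt) := Good.filter (fun l => (fun z : ↥I => π (ev l) (z : ℤ)) = f) with hFb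
  have hsub : Fb ×ˢ Fb ⊆ (words (j ^ 3) ×ˢ words (j ^ 3)).filter (fun p => ev p.1 = ev p.2) := by
    rintro ⟨l, l'⟩ hp
    rw [Finset.mem_product, hFb, Finset.mem_filter, Finset.mem_filter] at hp
    obtain ⟨⟨h1, h2⟩, h3, h4⟩ := hp
    rw [Finset.mem_filter, Finset.mem_product]
    refine ⟨⟨(Finset.mem_sdiff.mp h1).1, (Finset.mem_sdiff.mp h3).1⟩, ?_⟩
    refine hsame l h1 l' h3 fun z hz => ?_
    have h5 := congrFun (h2.trans h4.symm) ⟨z, hz⟩
    exact h5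
  have h20 : ((Fb.card : ℝ)) ^ 2 ≤ 20 ^ (j ^ 3) := by
    have h1 := Finset.card_le_card hsub
    rw [Finset.card_product] at h1
    have h2 : ((Fb.card : ℝ)) ^ 2 ≤ (((words (j ^ 3) ×ˢ words (j ^ 3)).filter
        (fun p => ev p.1 = ev p.2)).card : ℝ) := by
      rw [sq]; exact_mod_cast h1
    refine h2.trans (le_trans (le_of_eq ?_) (hK (j ^ 3)))
    congr!
  have hTR : (0 : ℝ) < (T.card : ℝ) := by exact_mod_cast hTpos
  have hj4 : 4 * (T.card : ℝ) ^ 2 * 20 ^ (j ^ 3) < 25 ^ (j ^ 3) := by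
    refine lt_of_le_of_lt ?_ hj3
    refine mul_le_mul_of_nonneg_right ?_ (by positivity)
    refine mul_le_mul_of_nonneg_left ?_ (by norm_num)
    exact pow_le_pow_left₀ hTR.le hTcard 2
  have h30 : (5 : ℝ) ^ (j ^ 3) / 2 / T.card ≤ Fb.card :=
    (div_le_div_of_nonneg_right hGoodcard hTR.le).trans hf
  have h40 : ((5 : ℝ) ^ (j ^ 3) / 2 / T.card) ^ 2 ≤ 20 ^ (j ^ 3) :=
    (pow_le_pow_left₀ (by positivity) h30 2).trans h20
  rw [div_div, div_pow, div_le_iff₀ (by positivity), ← pow_mul, mul_comm (j ^ 3) 2, pow_mul] at h40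
  have h50 : ((5 : ℝ) ^ 2) ^ (j ^ 3) = 25 ^ (j ^ 3) := by norm_num
  rw [h50] at h40
  nlinarith [h40, hj4]

end LEC

end Pool.Agent.Helper894.FS
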