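import Pool.Agent.Helper894.FS.Defs

namespace Pool.Agent.Helper894.FS

/-- line permutation of a permutation h of X with a cocycle c over T -/
theorem lnBijective {X : Type*} (T h : Equiv.Perm X) (c : X → ℤ)
    (hc : ∀ x, h x = (T ^ c x) x) (x : X) :
    Function.Bijective (fun n : ℤ => n + c ((T ^ n) x)) := by
  have key : ∀ n : ℤ, h ((T ^ n) x) = (T ^ (n + c ((T ^ n) x))) x := by
    intro n
    rw [hc, ← Equiv.Perm.mul_apply, ← zpow_add, add_comm]
  constructor
  · intro n m hnm
    simp only at hnm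
    have e1 := key n
    have e2 := key m
    rw [← hnm] at e2
    have e4 := h.injective (e1.trans e2.symm)
    rw [e4] at hnm
    omega
  · intro q
    set z := h.symm ((T ^ q) x) with hz
    have e1 : h z = (T ^ q) x := by rw [hz, h.apply_symm_apply]
    have e3 : z = (T ^ (q - c z)) x := by
      rw [hc] at e1
      have : (T ^ (-c z)) ((T ^ c z) z) = (T ^ (-c z)) ((T ^ q) x) := by rw [e1]
      rw [← Equiv.Perm.mul_apply, ← zpow_add, neg_add_cancel, zpow_zero,
        Equiv.Perm.one_apply, ← Equiv.Perm.mul_apply, ← zpow_add] at this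
      have e5 : -c z + q = q - c z := by ring
      rw [e5] at this
      exact this
    refine ⟨q - c z, ?_⟩
    simp only
    rw [← e3]
    ring

/-- the permutation of the line of x -/
noncomputable def lnPerm {X : Type*} (T h : Equiv.Perm X) (c : X → ℤ)
    (hc : ∀ x, h x = (T ^ c x) x) (x : X) : Equiv.Perm ℤ :=
  Equiv.ofBijective _ (lnBijective T h c hc x)

theorem lnPerm_apply {X : Type*} (T h : Equiv.Perm X) (c : X → ℤ)
    (hc : ∀ x, h x = (T ^ c x) x) (x : X) (n : ℤ) :
    lnPerm T h c hc x n = n + c ((T ^ n) x) := rfl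

/-- the action of the free group on the line of x -/
noncomputable def lnHom {X : Type*} (T : Equiv.Perm X) (a : Bool → Equiv.Perm X)
    (c : Bool → X → ℤ) (hc : ∀ b x, a b x = (T ^ c b x) x) (x : X) :
    F2 →* Equiv.Perm ℤ := FreeGroup.lift (fun b => lnPerm T (a b) (c b) (hc b) x)

theorem lnHom_of {X : Type*} (T : Equiv.Perm X) (a : Bool → Equiv.Perm X)
    (c : Bool → X → ℤ) (hc : ∀ b x, a b x = (T ^ c b x) x) (x : X) (b : Bool) (n : ℤ) :
    lnHom T a c hc x (FreeGroup.of b) n = n + c b ((T ^ n) x) := by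
  rw [lnHom, FreeGroup.lift_apply_of, lnPerm_apply]

theorem lift_T {X : Type*} (T : Equiv.Perm X) (a : Bool → Equiv.Perm X)
    (c : Bool → X → ℤ) (hc : ∀ b x, a b x = (T ^ c b x) x) (g : F2) :
    ∀ (x : X) (n : ℤ), FreeGroup.lift a g ((T ^ n) x) = (T ^ (lnHom T a c hc x g n)) x := by
  have hof : ∀ (b : Bool) (x : X) (n : ℤ), a b ((T ^ n) x) =
      (T ^ (lnHom T a c hc x (FreeGroup.of b) n)) x := by
    intro b x n
    rw [hc, lnHom_of, ← Equiv.Perm.mul_apply, ← zpow_add, add_comm]
  induction g using FreeGroup.induction_on with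
  | C1 => intro x n; simp
  | of b => intro x n; rw [FreeGroup.lift_apply_of]; exact hof b x n
  | inv_of b _ =>
    intro x n
    rw [map_inv, map_inv, FreeGroup.lift_apply_of]
    rw [Equiv.Perm.inv_eq_iff_eq, hof]
    congr 2
    simp
  | mul g h hg hh =>
    intro x n
    rw [map_mul, map_mul, Equiv.Perm.mul_apply, Equiv.Perm.mul_apply, hh, hg]

theorem lift_zero {X : Type*} (T : Equiv.Perm X) (a : Bool → Equiv.Perm X)
    (c : Bool → X → ℤ) (hc : ∀ b x, a b x = (T ^ c b x) x) (g : F2) (x : X) :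
    FreeGroup.lift a g x = (T ^ (lnHom T a c hc x g 0)) x := by
  have := lift_T T a c hc g x 0
  simpa using this

theorem lnHom_shift {X : Type*} (T : Equiv.Perm X) (a : Bool → Equiv.Perm X)
    (c : Bool → X → ℤ) (hc : ∀ b x, a b x = (T ^ c b x) x) (k : ℤ) (g : F2) :
    ∀ (x : X) (n : ℤ), lnHom T a c hc ((T ^ k) x) g n = lnHom T a c hc x g (n + k) - k := by
  have hof : ∀ (b : Bool) (x : X) (n : ℤ), lnHom T a c hc ((T ^ k) x) (FreeGroup.of b) n =
      lnHom T a c hc x (FreeGroup.of b) (n + k) - k := by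
    intro b x n
    rw [lnHom_of, lnHom_of, ← Equiv.Perm.mul_apply, ← zpow_add]
    ring
  induction g using FreeGroup.induction_on with
  | C1 => intro x n; simp
  | of b => intro x n; exact hof b x n
  | inv_of b _ =>
    intro x n
    rw [map_inv, map_inv, Equiv.Perm.inv_eq_iff_eq, hof]
    simp
  | mul g h hg hh =>
    intro x n
    rw [map_mul, map_mul, Equiv.Perm.mul_apply, Equiv.Perm.mul_apply, hh, hg]
    congr 2
    ring

end Pool.Agent.Helper894.FS
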