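import Pool.Agent.Helper894.FS.JD1

namespace Pool.Agent.Helper894.FS

namespace LW

open scoped BigOperators

open JD1

/-- the pair estimate -/
theorem pair_est (σ : Equiv.Perm ℤ) (W : ℤ → ℝ) (δ : ℝ)
    (hW : ∀ n, 0 < W n) (hδ1 : ∀ n : ℤ, W (σ n) - W n ≤ δ * W n)
    (hδ2 : ∀ n : ℤ, W n - W (σ n) ≤ δ * W (σ n))
    (f : ℤ → ℝ) (hf : (Function.support f).Finite) :
    ∑' n, (1 / 5 * (W n * f (σ n) ^ 2 + W n * f (σ⁻¹ n) ^ 2) -
      1 / 25 * (W n * (f n - f (σ n)) ^ 2 + W n * (f n - f (σ⁻¹ n)) ^ 2)) ≤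
      (2 / 5 + 1 / 2 * δ ^ 2) * ∑' n, W n * f n ^ 2 := by
  have hf1 := fin_comp hf σ
  have hf2 := fin_comp hf σ⁻¹
  have hT := (hf.union hf1).union hf2
  have hz : ∀ n, n ∉ (Function.support f ∪ Function.support (fun n => f (σ n))) ∪
      Function.support (fun n => f (σ⁻¹ n)) → f n = 0 ∧ f (σ n) = 0 ∧ f (σ⁻¹ n) = 0 := by
    intro n hn
    simp only [Set.mem_union, Function.mem_support, not_or, not_not] at hn
    exact ⟨hn.1.1, hn.1.2, hn.2⟩
  have mk : ∀ g : ℤ → ℝ, (∀ n, f n = 0 → f (σ n) = 0 → f (σ⁻¹ n) = 0 → g n = 0) → Summable g := by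
    intro g hg
    refine sum_fs hT fun n hn => ?_
    by_contra hcon
    obtain ⟨a, b, c⟩ := hz n hcon
    exact hn (hg n a b c)
  have sF : Summable fun n => W n * f n ^ 2 := mk _ (fun n a b c => by rw [a]; ring)
  have sX1 : Summable fun n => W n * f (σ n) ^ 2 := mk _ (fun n a b c => by rw [b]; ring)
  have sX2 : Summable fun n => W n * f (σ⁻¹ n) ^ 2 := mk _ (fun n a b c => by rw [c]; ring)
  have sD1 : Summable fun n => W n * (f n - f (σ n)) ^ 2 := mk _ (fun n a b c => by rw [a, b]; ring)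
  have sD2 : Summable fun n => W n * (f n - f (σ⁻¹ n)) ^ 2 := mk _ (fun n a b c => by rw [a, c]; ring)
  have sX2' : Summable fun n => W (σ n) * f n ^ 2 := mk _ (fun n a b c => by rw [a]; ring)
  have sD2' : Summable fun n => W (σ n) * (f (σ n) - f n) ^ 2 := mk _ (fun n a b c => by rw [a, b]; ring)
  have sF' : Summable fun n => W (σ n) * f (σ n) ^ 2 := mk _ (fun n a b c => by rw [b]; ring)
  have eX2 : ∑' n, W n * f (σ⁻¹ n) ^ 2 = ∑' n, W (σ n) * f n ^ 2 := by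
    rw [← Equiv.tsum_eq σ]
    simp
  have eD2 : ∑' n, W n * (f n - f (σ⁻¹ n)) ^ 2 = ∑' n, W (σ n) * (f (σ n) - f n) ^ 2 := by
    rw [← Equiv.tsum_eq σ]
    simp
  have eF : ∑' n, W (σ n) * f (σ n) ^ 2 = ∑' n, W n * f n ^ 2 :=
    Equiv.tsum_eq σ (fun n => W n * f n ^ 2)
  have h1 : ∑' n, (1 / 5 * (W n * f (σ n) ^ 2 + W n * f (σ⁻¹ n) ^ 2) -
      1 / 25 * (W n * (f n - f (σ n)) ^ 2 + W n * (f n - f (σ⁻¹ n)) ^ 2)) =
      1 / 5 * (∑' n, W n * f (σ n) ^ 2 + ∑' n, W n * f (σ⁻¹ n) ^ 2) -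
      1 / 25 * (∑' n, W n * (f n - f (σ n)) ^ 2 + ∑' n, W n * (f n - f (σ⁻¹ n)) ^ 2) :=
    (((sX1.hasSum.add sX2.hasSum).mul_left (1 / 5)).sub
      ((sD1.hasSum.add sD2.hasSum).mul_left (1 / 25))).tsum_eq
  rw [h1, eX2, eD2]
  have h2 := ((sX1.hasSum.add sX2'.hasSum).mul_left (1 / 5 : ℝ)).sub
      ((sD1.hasSum.add sD2'.hasSum).mul_left (1 / 25 : ℝ))
  have h3 := ((sF.hasSum.add sF'.hasSum).mul_left (1 / 5 : ℝ)).add
    ((sF.hasSum.add sF'.hasSum).mul_left (1 / 4 * δ ^ 2))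
  have h4 := hasSum_le (fun n => by
    exact pw2 (u := f n) (v := f (σ n)) (hW n) (hW (σ n))
      (hδ2 n) (hδ1 n)) h2 h3
  rw [eF] at h4
  refine h4.trans (le_of_eq ?_)
  ring

/-- weighted L2 estimate for one step of the lazy walk -/
theorem weighted_edge (π : F2 →* Equiv.Perm ℤ) (W : ℤ → ℝ) (δ : ℝ)
    (hW : ∀ n, 0 < W n) (hδ : ∀ (s : Lt) (n : ℤ), W (π (lt s) n) - W n ≤ δ * W n)
    (f : ℤ → ℝ) (hf : (Function.support f).Finite) :
    ∑' n, W n * (avg π f n) ^ 2 ≤ (1 + δ ^ 2) * ∑' n, W n * (f n) ^ 2 := by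
  set p := π (FreeGroup.of true) with hp
  set q := π (FreeGroup.of false) with hq
  have hinv : ∀ (x : Bool) (n : ℤ), W n - W (π (FreeGroup.of x) n) ≤
      δ * W (π (FreeGroup.of x) n) := by
    intro x n
    have h := hδ (some (x, false)) (π (FreeGroup.of x) n)
    have e : lt (some (x, false)) = (FreeGroup.of x)⁻¹ := rfl
    rwa [e, ← Equiv.Perm.mul_apply, ← map_mul, inv_mul_cancel, map_one,
      Equiv.Perm.one_apply] at h
  have h1 := pair_est p W δ hW (hδ (some (true, true))) (hinv true) f hf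
  have h2 := pair_est q W δ hW (hδ (some (false, true))) (hinv false) f hf
  have hT := (((hf.union (fin_comp hf p)).union (fin_comp hf p⁻¹)).union (fin_comp hf q)).union
    (fin_comp hf q⁻¹)
  have mk : ∀ g : ℤ → ℝ, (∀ n, f n = 0 → f (p n) = 0 → f (p⁻¹ n) = 0 → f (q n) = 0 →
      f (q⁻¹ n) = 0 → g n = 0) → Summable g := by
    intro g hg
    refine sum_fs hT fun n hn => ?_
    by_contra hcon
    simp only [Set.mem_union, Function.mem_support, not_or, not_not] at hcon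
    exact hn (hg n hcon.1.1.1.1 hcon.1.1.1.2 hcon.1.1.2 hcon.1.2 hcon.2)
  have sA : Summable fun n => W n * (avg π f n) ^ 2 := mk _ (fun n a b c d e => by
    rw [avg_eq, ← hp, ← hq, a, b, c, d, e]; ring)
  have sF : Summable fun n => W n * f n ^ 2 := mk _ (fun n a b c d e => by rw [a]; ring)
  have sP : Summable fun n => (1 / 5 * (W n * f (p n) ^ 2 + W n * f (p⁻¹ n) ^ 2) -
      1 / 25 * (W n * (f n - f (p n)) ^ 2 + W n * (f n - f (p⁻¹ n)) ^ 2)) :=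
    mk _ (fun n a b c d e => by rw [a, b, c]; ring)
  have sQ : Summable fun n => (1 / 5 * (W n * f (q n) ^ 2 + W n * f (q⁻¹ n) ^ 2) -
      1 / 25 * (W n * (f n - f (q n)) ^ 2 + W n * (f n - f (q⁻¹ n)) ^ 2)) :=
    mk _ (fun n a b c d e => by rw [a, d, e]; ring)
  have h3 := ((sF.hasSum.mul_left (1 / 5 : ℝ)).add sP.hasSum).add sQ.hasSum
  have h4 := hasSum_le (fun n => by
    have h5 := mul_le_mul_of_nonneg_left (five_ineq (f n) (f (p n)) (f (p⁻¹ n)) (f (q n)) (f (q⁻¹ n)))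
      (hW n).le
    show W n * (avg π f n) ^ 2 ≤ 1 / 5 * (W n * f n ^ 2) +
      (1 / 5 * (W n * f (p n) ^ 2 + W n * f (p⁻¹ n) ^ 2) -
        1 / 25 * (W n * (f n - f (p n)) ^ 2 + W n * (f n - f (p⁻¹ n)) ^ 2)) +
      (1 / 5 * (W n * f (q n) ^ 2 + W n * f (q⁻¹ n) ^ 2) -
        1 / 25 * (W n * (f n - f (q n)) ^ 2 + W n * (f n - f (q⁻¹ n)) ^ 2))
    rw [avg_eq, ← hp, ← hq]
    linarith) sA.hasSum h3
  have h6 : 0 ≤ ∑' n, W n * f n ^ 2 := tsum_nonneg fun n => mul_nonneg (hW n).le (sq_nonneg _)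
  linarith


end LW

end Pool.Agent.Helper894.FS
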