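import Pool.Agent.Helper894.LD.LinesT
import Pool.Agent.Helper894.LD.W
import Pool.Agent.Helper894.FS.JA
import Pool.Agent.Helper894.FS.JK
import Pool.Agent.Helper894.LD.LEA
import Pool.Agent.Helper894.LD.LEB
import Pool.Agent.Helper894.LD.LEC
import Pool.Agent.Helper894.LD.LF2
import Pool.Agent.Helper894.LD.LP2
import Pool.Agent.Helper894.LD.LP3
import Pool.Agent.Helper894.LD.LP5

namespace Pool.Agent.Helper894.FS

open MeasureTheory

section

variable {X : Type*} [MeasurableSpace X] {μ : Measure X}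

theorem mp_zpow (T : X ≃ᵐ X) (hT : MeasurePreserving T μ μ) (k : ℤ) :
    MeasurePreserving (fun x => ((T.toEquiv : Equiv.Perm X) ^ k) x) μ μ := by
  have hT' : MeasurePreserving (fun x => ((T.toEquiv : Equiv.Perm X)⁻¹) x) μ μ := hT.symm
  induction k using Int.induction_on with
  | zero =>
    simp only [zpow_zero, Equiv.Perm.one_apply]
    exact MeasurePreserving.id μ
  | succ n ih =>
    have e : (fun x => ((T.toEquiv : Equiv.Perm X) ^ ((n : ℤ) + 1)) x) =
        (fun x => ((T.toEquiv : Equiv.Perm X) ^ (n : ℤ)) x) ∘ T := by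
      funext x
      rw [zpow_add_one, Equiv.Perm.mul_apply]
      rfl
    rw [e]
    exact ih.comp hT
  | pred n ih =>
    have e : (fun x => ((T.toEquiv : Equiv.Perm X) ^ (-(n : ℤ) - 1)) x) =
        (fun x => ((T.toEquiv : Equiv.Perm X) ^ (-(n : ℤ))) x) ∘
          (fun x => ((T.toEquiv : Equiv.Perm X)⁻¹) x) := by
      funext x
      rw [zpow_sub_one, Equiv.Perm.mul_apply]
      rfl
    rw [e]
    exact ih.comp hT'

theorem mp_lift (a : Bool → X ≃ᵐ X) (ha : ∀ b, MeasurePreserving (a b) μ μ) (g : F2) :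
    MeasurePreserving
      (fun x => FreeGroup.lift (fun b => ((a b).toEquiv : Equiv.Perm X)) g x) μ μ := by
  induction g using FreeGroup.induction_on with
  | C1 =>
    simp only [map_one, Equiv.Perm.one_apply]
    exact MeasurePreserving.id μ
  | of b => simpa using ha b
  | inv_of b _ =>
    have h : MeasurePreserving (a b).symm μ μ := (ha b).symm
    simpa using h
  | mul g h hg hh =>
    have e : (fun x => FreeGroup.lift (fun b => ((a b).toEquiv : Equiv.Perm X)) (g * h) x) =
        (fun x => FreeGroup.lift (fun b => ((a b).toEquiv : Equiv.Perm X)) g x) ∘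
        (fun x => FreeGroup.lift (fun b => ((a b).toEquiv : Equiv.Perm X)) h x) := by
      funext x
      rw [map_mul, Equiv.Perm.mul_apply]
      rfl
    rw [e]
    exact hg.comp hh

theorem meas_lnHom (T : Equiv.Perm X) (hTz : ∀ k : ℤ, Measurable (fun x => (T ^ k) x))
    (a : Bool → Equiv.Perm X) (c : Bool → X → ℤ) (hc : ∀ b x, a b x = (T ^ c b x) x)
    (hcm : ∀ b, Measurable (c b)) (g : F2) :
    ∀ n : ℤ, Measurable (fun x => lnHom T a c hc x g n) := by
  have hof : ∀ (b : Bool) (n : ℤ), Measurable (fun x => lnHom T a c hc x (FreeGroup.of b) n) := by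
    intro b n
    simp only [lnHom_of]
    exact ((hcm b).comp (hTz n)).const_add n
  induction g using FreeGroup.induction_on with
  | C1 => intro n; simp
  | of b => intro n; exact hof b n
  | inv_of b _ =>
    intro n
    apply measurable_to_countable'
    intro m
    have e : (fun x => lnHom T a c hc x (FreeGroup.of b)⁻¹ n) ⁻¹' {m} =
        (fun x => lnHom T a c hc x (FreeGroup.of b) m) ⁻¹' {n} := by
      ext x
      simp only [Set.mem_preimage, Set.mem_singleton_iff]
      rw [map_inv, Equiv.Perm.inv_eq_iff_eq]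
      exact eq_comm
    rw [e]
    exact hof b m (measurableSet_singleton n)
  | mul g h hg hh =>
    intro n
    apply measurable_to_countable'
    intro m
    have e : (fun x => lnHom T a c hc x (g * h) n) ⁻¹' {m} =
        ⋃ k : ℤ, ((fun x => lnHom T a c hc x h n) ⁻¹' {k}) ∩
          ((fun x => lnHom T a c hc x g k) ⁻¹' {m}) := by
      ext x
      simp only [Set.mem_preimage, Set.mem_singleton_iff, Set.mem_iUnion, Set.mem_inter_iff]
      rw [map_mul, Equiv.Perm.mul_apply]
      constructor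
      · intro hx
        exact ⟨_, rfl, hx⟩
      · rintro ⟨k, rfl, hx⟩
        exact hx
    rw [e]
    exact MeasurableSet.iUnion fun k => (hh n (measurableSet_singleton k)).inter
      (hg k (measurableSet_singleton m))

end

/-- the primitive of rho along the orbit -/
noncomputable def prim {X : Type*} (T : Equiv.Perm X) (ρ : X → ℝ) (x : X) (y : ℤ) : ℝ :=
  ∑ j ∈ Finset.Ico 0 y, ρ ((T ^ j) x) - ∑ j ∈ Finset.Ico y 0, ρ ((T ^ j) x)

theorem prim_succ {X : Type*} (T : Equiv.Perm X) (ρ : X → ℝ) (x : X) (y : ℤ) :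
    prim T ρ x (y + 1) = prim T ρ x y + ρ ((T ^ y) x) := by
  unfold prim
  rcases le_or_gt 0 y with h | h
  · have e1 : Finset.Ico (0 : ℤ) (y + 1) = insert y (Finset.Ico 0 y) := by
      ext j; simp only [Finset.mem_Ico, Finset.mem_insert]; omega
    have e2 : Finset.Ico (y + 1) (0 : ℤ) = ∅ := Finset.Ico_eq_empty (by omega)
    have e3 : Finset.Ico y (0 : ℤ) = ∅ := Finset.Ico_eq_empty (by omega)
    rw [e1, e2, e3, Finset.sum_insert (by simp)]
    simp
    ring
  · have e1 : Finset.Ico y (0 : ℤ) = insert y (Finset.Ico (y + 1) 0) := by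
      ext j; simp only [Finset.mem_Ico, Finset.mem_insert]; omega
    have e2 : Finset.Ico (0 : ℤ) (y + 1) = ∅ := Finset.Ico_eq_empty (by omega)
    have e3 : Finset.Ico (0 : ℤ) y = ∅ := Finset.Ico_eq_empty (by omega)
    rw [e1, e2, e3, Finset.sum_insert (by simp)]
    simp

theorem prim_zero {X : Type*} (T : Equiv.Perm X) (ρ : X → ℝ) (x : X) : prim T ρ x 0 = 0 := by
  simp [prim]

theorem prim_add_nat {X : Type*} (T : Equiv.Perm X) (ρ : X → ℝ) (x : X) (n : ℤ) (k : ℕ) :
    prim T ρ x (n + k) = prim T ρ x n + ∑ j ∈ Finset.Ico (0 : ℤ) k, ρ ((T ^ (j + n)) x) := by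
  induction k with
  | zero => simp
  | succ k ih =>
    have e1 : Finset.Ico (0 : ℤ) ((k + 1 : ℕ) : ℤ) = insert (k : ℤ) (Finset.Ico 0 (k : ℤ)) := by
      ext j; simp only [Finset.mem_Ico, Finset.mem_insert]; push_cast; omega
    have e2 : n + ((k + 1 : ℕ) : ℤ) = (n + k) + 1 := by push_cast; ring
    rw [e1, e2, prim_succ, ih, Finset.sum_insert (by simp)]
    rw [add_comm n (k : ℤ)]
    ring

theorem prim_edge {X : Type*} (T : Equiv.Perm X) (ρ : X → ℝ) (x : X) (n k : ℤ) :
    |prim T ρ x (n + k) - prim T ρ x n| =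
      |∑ j ∈ Finset.Ico (min 0 k) (max 0 k), ρ ((T ^ j) ((T ^ n) x))| := by
  have hT : ∀ j : ℤ, (T ^ j) ((T ^ n) x) = (T ^ (j + n)) x := by
    intro j
    rw [← Equiv.Perm.mul_apply, ← zpow_add]
  simp only [hT]
  rcases le_or_gt 0 k with h | h
  · obtain ⟨m, rfl⟩ := Int.eq_ofNat_of_zero_le h
    rw [min_eq_left h, max_eq_right h, prim_add_nat]
    congr 1
    ring
  · obtain ⟨m, hm⟩ := Int.eq_ofNat_of_zero_le (show 0 ≤ -k by omega)
    have hk : k = -(m : ℤ) := by omega
    subst hk
    rw [min_eq_right (by omega), max_eq_left (by omega)]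
    have h1 := prim_add_nat T ρ x (n + -(m : ℤ)) m
    have e1 : n + -(m : ℤ) + m = n := by ring
    rw [e1] at h1
    rw [h1, abs_sub_comm]
    have e2 : ∑ j ∈ Finset.Ico (0 : ℤ) m, ρ ((T ^ (j + (n + -(m : ℤ)))) x) =
        ∑ j ∈ Finset.Ico (-(m : ℤ)) 0, ρ ((T ^ (j + n)) x) := by
      apply Finset.sum_bij (fun j _ => j + -(m : ℤ))
      · intro j hj; simp only [Finset.mem_Ico] at hj ⊢; omega
      · intro i _ j _ hij; omega
      · intro j hj
        simp only [Finset.mem_Ico] at hj
        exact ⟨j + m, by simp only [Finset.mem_Ico]; omega, by ring⟩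
      · intro j _
        congr 3
        ring
    rw [e2]
    congr 1
    ring

theorem everywhere_version {X : Type*} [MeasurableSpace X] (μ : Measure X)
    [IsProbabilityMeasure μ] (T : X ≃ᵐ X) (hT : MeasurePreserving T μ μ) (a : Bool → X ≃ᵐ X)
    (ha : ∀ b, MeasurePreserving (a b) μ μ) (c : Bool → X → ℤ) (hcm : ∀ b, Measurable (c b))
    (hc : ∀ b x, a b x = ((T.toEquiv : Equiv.Perm X) ^ c b x) x)
    (hint : ∀ b, Integrable (fun x => (c b x : ℝ)) μ) (ε : ℝ) (hε : 0 < ε) :
    ∃ w : F2, w ≠ 1 ∧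
      μ.real {x | FreeGroup.lift (fun b => ((a b).toEquiv : Equiv.Perm X)) w x ≠ x} ≤ ε := by
  set T' : Equiv.Perm X := T.toEquiv with hT'
  set a' : Bool → Equiv.Perm X := fun b => ((a b).toEquiv : Equiv.Perm X) with ha'
  have hc' : ∀ b x, a' b x = (T' ^ c b x) x := hc
  have hTmp : ∀ k : ℤ, MeasurePreserving (fun x => (T' ^ k) x) μ μ := mp_zpow T hT
  have hTz : ∀ k : ℤ, Measurable (fun x => (T' ^ k) x) := fun k => (hTmp k).measurable
  obtain ⟨ρ, hρm, hρ0, hρpos, hρe⟩ := LP2.exists_rho μ T' hTz hTmp c hcm hint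
  obtain ⟨A, hA⟩ := LP3.growth μ T' hTmp ρ hρm hρ0 hρpos (ε / 2) (half_pos hε)
  obtain ⟨L, hL1, G₀, hG1, hG2⟩ := LEC.barriers_phi JK.card_pairs
    (fun π φ hφ hπ c D hD l l' h1 h2 h3 => LEA.bar_of_good_phi π φ hφ hπ c D hD l l' h1 h2 h3)
    (fun π φ hπ c z D hD hz S hS lam h0 h1 n => LEB.tail_phi π φ hπ
      (fun W δ hW hδ f hf => LW.weighted_edge π W δ hW hδ f hf) c z D hD hz S hS lam h0 h1 n)
    A 1
  set π : X → (F2 →* Equiv.Perm ℤ) := fun x => lnHom T' a' c hc' x with hπ
  have hpos' : ∀ᵐ x ∂μ, ∀ j : ℤ, 0 < ρ ((T' ^ j) x) := by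
    rw [ae_all_iff]
    intro j
    exact (hTmp j).quasiMeasurePreserving.ae hρpos
  have hB : μ.real {x | ¬ ∃ g ∈ G₀, Bar (π x) g 0} ≤ ε / 2 := by
    refine le_trans ?_ (hA L hL1)
    have hsub : μ {x | ¬ ∃ g ∈ G₀, Bar (π x) g 0} ≤
        μ {x | ¬ (3 * (L : ℝ) < ∑ j ∈ Finset.Ico (0 : ℤ) (A * L), ρ ((T' ^ j) x) ∧
        3 * (L : ℝ) < ∑ j ∈ Finset.Ico (-(A * L : ℤ)) 0, ρ ((T' ^ j) x))} := by
      apply measure_mono_ae
      filter_upwards [hpos'] with x hx hx1
      intro hgr
      apply hx1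
      have hmono : StrictMono (prim T' ρ x) := by
        apply strictMono_int_of_lt_succ
        intro n
        rw [prim_succ]
        linarith [hx n]
      apply hG2 (π x) (prim T' ρ x) hmono
      · intro b n
        rw [hπ]
        simp only
        rw [lnHom_of, prim_edge, abs_of_nonneg (Finset.sum_nonneg fun j _ => hρ0 _)]
        exact hρe b _
      · intro y hy
        rw [prim_zero, sub_zero] at hy
        rw [sub_zero]
        have h1 : 3 * (L : ℝ) < prim T' ρ x (A * L) := by
          have e : Finset.Ico ((A : ℤ) * L) 0 = ∅ := Finset.Ico_eq_empty (by have := Int.mul_nonneg (Int.natCast_nonneg A) (Int.natCast_nonneg L); omega)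
          unfold prim
          rw [e]
          simpa using hgr.1
        have h2 : prim T' ρ x (-(A * L)) < -(3 * (L : ℝ)) := by
          have e : Finset.Ico (0 : ℤ) (-((A : ℤ) * L)) = ∅ :=
            Finset.Ico_eq_empty (by have := Int.mul_nonneg (Int.natCast_nonneg A) (Int.natCast_nonneg L); omega)
          unfold prim
          rw [e]
          have := hgr.2
          simp only [Finset.sum_empty, zero_sub]
          linarith
        rw [abs_le] at hy ⊢
        constructor
        · by_contra hcon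
          push Not at hcon
          have := hmono.monotone hcon.le
          linarith [hy.1]
        · by_contra hcon
          push Not at hcon
          have := hmono.monotone hcon.le
          linarith [hy.2]
    exact ENNReal.toReal_mono (measure_ne_top _ _) hsub
  obtain ⟨C, hC1, hC2⟩ := LF2.small_support_meas μ T' hTz π
    (fun x k g n => lnHom_shift T' a' c hc' k g x n)
    (fun g n => meas_lnHom T' hTz a' c hc' hcm g n)
    (fun g => by
      have e : (fun x => (T' ^ (π x g 0)) x) = fun x => FreeGroup.lift a' g x := by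
        funext x
        exact (lift_zero T' a' c hc' g x).symm
      rw [e]
      exact mp_lift a ha g)
    (fun g g' hg hg' => by
      obtain ⟨p, q, h⟩ := JA.twist g g' hg hg'
      exact ⟨_, h⟩) JA.torsion_free G₀ hG1 (ε / 2) (half_pos hε) hB
  refine ⟨C, hC1, ?_⟩
  have hsub : {x | FreeGroup.lift a' C x ≠ x} ⊆ {x | π x C 0 ≠ 0} := by
    intro x hx h0
    apply hx
    rw [lift_zero T' a' c hc' C x]
    have : lnHom T' a' c hc' x C 0 = 0 := h0
    rw [this]
    simp
  calc μ.real {x | FreeGroup.lift a' C x ≠ x} ≤ μ.real {x | π x C 0 ≠ 0} :=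
        measureReal_mono hsub
    _ ≤ 2 * (ε / 2) := hC2
    _ = ε := by ring

theorem ae_version {X : Type*} [MeasurableSpace X] (μ : Measure X)
    [IsProbabilityMeasure μ] (T : X ≃ᵐ X) (hT : MeasurePreserving T μ μ) (a : Bool → X ≃ᵐ X)
    (ha : ∀ b, MeasurePreserving (a b) μ μ) (c : Bool → X → ℤ) (hcm : ∀ b, Measurable (c b))
    (hc : ∀ b, ∀ᵐ x ∂μ, a b x = ((T.toEquiv : Equiv.Perm X) ^ c b x) x)
    (hint : ∀ b, Integrable (fun x => (c b x : ℝ)) μ) (ε : ℝ) (hε : 0 < ε) :
    ∃ w : F2, w ≠ 1 ∧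
      μ.real {x | FreeGroup.lift (fun b => ((a b).toEquiv : Equiv.Perm X)) w x ≠ x} ≤ ε := by
  obtain ⟨a', c', h1, h2, h3, h4, h5⟩ := LP5.ae_reduction μ T hT a ha c hcm hc hint
  obtain ⟨w, hw1, hw2⟩ := everywhere_version μ T hT a' h1 c' h2 h3 h4 ε hε
  refine ⟨w, hw1, le_trans (le_of_eq ?_) hw2⟩
  apply measureReal_congr
  filter_upwards [h5 w] with x hx
  apply propext
  show FreeGroup.lift (fun b => ((a b).toEquiv : Equiv.Perm X)) w x ≠ x ↔
    FreeGroup.lift (fun b => ((a' b).toEquiv : Equiv.Perm X)) w x ≠ x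
  rw [hx]

end Pool.Agent.Helper894.FS
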